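import Pool.Agent.W550.B.Defs
import Pool.Agent.H447R3.SpDefs
import Pool.Agent.H447R3.NcDefs

/-!
# Direct summands of numerical motives: definitions
-/

open CategoryTheory AlgebraicGeometry

universe u v

namespace Pool.Agent.N190.Ns

open Pool.Agent.H447 Pool.Agent.W550.B
open Pool.Agent.H914 VarClass Obj WeilCohomology

variable {k : Type u} [Field k] {𝒱 : VarClass k}

/-- The diagonal of `Y × Y`, as a cycle. -/
noncomputable def diagCyc (ops : CycleOps 𝒱) (Y : 𝒱.Obj) : (Y.prod Y).Cycles :=
  ops.push (diag Y) Y.V.fundCycle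

/-- The numerical motive of `Y` is a direct summand of the direct sum of Tate twists of the
numerical motives of the varieties `P j`: there are cycles `u j` on `Y × P j` and `v j` on
`P j × Y` of opposite degrees (as correspondences) such that the sum of the compositions `v j ∘ u j`
is numerically equivalent to the diagonal of `Y × Y`. -/
def IsNumSummand (ops : CycleOps 𝒱) (Y : 𝒱.Obj) {r : ℕ} (P : Fin r → 𝒱.Obj) : Prop :=
  ∃ (u : ∀ j, (Y.prod (P j)).Cycles) (v : ∀ j, ((P j).prod Y).Cycles),
    (∀ j, AreOpposite (u j) (v j)) ∧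
    NumEquiv ops (Y.prod Y) Y.dim (∑ j, compCyc ops (u j) (v j)) (diagCyc ops Y)

/-- The numerical motive of `Y` is a direct summand of a sum of Tate twists of numerical motives of
products of varieties in `S`. -/
def IsNumGenerated (ops : CycleOps 𝒱) (S : Set 𝒱.Obj) (Y : 𝒱.Obj) : Prop :=
  ∃ (r : ℕ) (Q : Fin r → 𝒱.Obj), (∀ j, IsProductOf S (Q j)) ∧ IsNumSummand ops Y Q

end Pool.Agent.N190.Ns
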