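import Pool.Agent.N190.Ns.Defs
import Pool.Agent.N190.Sd.Bal
import Pool.Agent.W550.B.Top
import Pool.Agent.W537.OneCycleB

/-!
# Lifting of numerical direct summands
-/

set_option autoImplicit false

open CategoryTheory AlgebraicGeometry Finset Polynomial Module

universe u v

namespace Pool.Agent.N190.Ns

open Pool.Agent.H447 Pool.Agent.W550.B Pool.Agent.W537 Pool.Agent.N190.Sd
open Pool.Agent.H914 VarClass Obj WeilCohomology

variable {k : Type u} [Field k] {𝒱 : VarClass k} {ops : CycleOps 𝒱}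
  {W : WeilCohomology.{u, v} ops} {X Y : 𝒱.Obj}

lemma par_rop_of_sign (h : SignStd W Y) : ROp W Y 0 (par (W.isInternal Y)) := by
  obtain ⟨P, hP, hP'⟩ := h
  have hOA := rop_opAlg (W := W) (X := Y)
  have h1 : par (W.isInternal Y) = ((2 : ℚ) : W.K) • W.corr (W.cl _ P) - 1 := by
    apply gr_ext (W.isInternal Y)
    intro i a ha
    rw [par, scal_apply _ _ ha, LinearMap.sub_apply, LinearMap.smul_apply, hP' i a ha,
      Module.End.one_apply]
    split_ifs with hi
    · rw [hi.neg_one_pow, one_smul]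
      push_cast
      rw [two_smul, add_sub_cancel_right]
    · rw [(Nat.not_even_iff_odd.1 hi).neg_one_pow, smul_zero, zero_sub, neg_smul, one_smul]
  rw [h1]
  exact hOA.sub (hOA.smul 2 (rop_corr (d := 0) (by simp) hP)) hOA.one

lemma diagCyc_mem : (Y.prod Y).IsCyc Y.dim (diagCyc ops Y) := by
  apply ops.push_mem _ Y.V.fundCycle_mem
  rw [dim_prod]; omega

lemma corr_diagCyc : W.corr (W.cl _ (diagCyc ops Y)) = 1 := by
  apply LinearMap.ext
  intro a
  rw [diagCyc, W.cl_push, corr_diag, W.cl_fund, one_mul, Module.End.one_apply]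

/-- A numerically trivial correspondence of degree zero is nilpotent if the sign operator is
algebraic. -/
lemma nilpotent_of_num (hs : SignStd W Y) {N : End W.K (W.H Y)}
    (hN : NumR (W.isInternal Y) (ROp W Y) 0 N) : IsNilpotent N := by
  have hOA := rop_opAlg (W := W) (X := Y)
  have hpar := par_rop_of_sign hs
  apply isNilpotent_of_trace_pow
  intro r
  have hNr : ROp W Y 0 (N ^ r) := hOA.cast (hOA.pow hN.1 r) (by simp)
  have h1 := hN.2 (N ^ r * par (W.isInternal Y)) (hOA.cast (hOA.mul hNr hpar) (by simp))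
  rw [← mul_assoc N, ← mul_assoc (par (W.isInternal Y)), LinearMap.trace_mul_comm,
    ← mul_assoc, par_mul_par, one_mul, ← pow_succ'] at h1
  exact h1

lemma isCyc_sum {p : ℕ} {ι : Type*} (t : Finset ι) {z : ι → X.Cycles}
    (hz : ∀ j ∈ t, X.IsCyc p (z j)) : X.IsCyc p (∑ j ∈ t, z j) := by
  classical
  induction t using Finset.induction_on with
  | empty => rw [Finset.sum_empty]; exact SmVar.IsCyc.zero _ _
  | insert a t ha ih =>
    rw [Finset.sum_insert ha]
    exact SmVar.IsCyc.add (hz a (by simp)) (ih fun i hi => hz i (by simp [hi]))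

lemma corr_cl_sum {Z : 𝒱.Obj} {ι : Type*} (t : Finset ι) (z : ι → (Y.prod Z).Cycles) :
    W.corr (W.cl _ (∑ j ∈ t, z j)) = ∑ j ∈ t, W.corr (W.cl _ (z j)) := by
  classical
  induction t using Finset.induction_on with
  | empty => rw [Finset.sum_empty, Finset.sum_empty, map_zero, corr_zero]
  | insert a t ha ih =>
    rw [Finset.sum_insert ha, Finset.sum_insert ha, map_add, corr_add, ih]

/-- **Numerical direct summands are homological direct summands.** -/
theorem isSummand_of_num (hs : SignStd W Y) {r : ℕ} {P : Fin r → 𝒱.Obj}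
    (h : IsNumSummand ops Y P) : IsSummand W Y P := by
  have hOA := rop_opAlg (W := W) (X := Y)
  obtain ⟨u, v, hop, hnum⟩ := h
  choose a b hab hu hv using hop
  have hzj : ∀ j, (Y.prod Y).IsCyc Y.dim (compCyc ops (u j) (v j)) := fun j =>
    compCyc_mem (r := Y.dim) (hu j) (hv j) (by have := hab j; omega)
  have hz : (Y.prod Y).IsCyc Y.dim (∑ j, compCyc ops (u j) (v j)) :=
    isCyc_sum _ fun j _ => hzj j
  set T := W.corr (W.cl _ (∑ j, compCyc ops (u j) (v j))) with hT
  have hTsum : T = ∑ j, W.corr (W.cl _ (v j)) ∘ₗ W.corr (W.cl _ (u j)) := by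
    rw [hT, corr_cl_sum]
    exact Finset.sum_congr rfl fun j _ => corr_compCyc W (hv j)
  have hN : NumR (W.isInternal Y) (ROp W Y) 0 (1 - T) := by
    have := (numEquiv_iff (W := W) hz diagCyc_mem).1 hnum
    rwa [corr_diagCyc] at this
  obtain ⟨m, hm⟩ := nilpotent_of_num hs hN
  set S := ∑ i ∈ range m, (1 - T) ^ i with hS
  have hST : S * T = 1 := by
    have := geom_sum_mul_neg (1 - T) m
    rw [hm, sub_zero, sub_sub_cancel] at this
    exact this
  have hSR : ROp W Y 0 S := hOA.sum (fun i _ => hOA.cast (hOA.pow hN.1 i) (by simp))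
  obtain ⟨s, hs', hsS⟩ := exists_of_rop (p := Y.dim) (by simp) hSR
  refine ⟨u, fun j => compCyc ops (v j) s, fun j => ⟨a j, b j, hab j, hu j,
    compCyc_mem (r := b j) (hv j) hs' (by omega)⟩, fun x => ?_⟩
  have h1 : ∀ j, cycMap W (compCyc ops (v j) s) (cycMap W (u j) x) =
      S ((W.corr (W.cl _ (v j)) ∘ₗ W.corr (W.cl _ (u j))) x) := by
    intro j
    rw [cycMap, cycMap, corr_compCyc W hs', hsS]
    rfl
  rw [Finset.sum_congr rfl (fun j _ => h1 j), ← map_sum, ← LinearMap.sum_apply, ← hTsum,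
    ← Module.End.mul_apply, hST, Module.End.one_apply]

/-- **The conjecture B for numerical direct summands of products of Tate varieties.** -/
theorem B_of_numGenerated [IsAlgClosed W.K] (τ : W.K →+* W.K) {S : Set 𝒱.Obj}
    (hS : ∀ P ∈ S, IsTateVariety W τ P) (hY : IsNumGenerated ops S Y) (hs : SignStd W Y)
    {D : Y.Cycles} (hD : Y.IsCyc 1 D) (hHL : HardLefschetz W Y D) : LefschetzB W Y D := by
  obtain ⟨r, Q, hQ, h⟩ := hY
  exact lefschetzB_main τ hS (Or.inr ⟨r, Q, hQ, isSummand_of_num hs h⟩) hD hHL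

end Pool.Agent.N190.Ns
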